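import Mathlib

set_option autoImplicit false
set_option linter.all false

namespace Pool.Agent.Results.MP_836feb_al.NonPrimePower

universe u v

/-- The free Burnside group of exponent `n` on the set `α`. -/
abbrev B (α : Type u) (n : ℕ) : Type u :=
  FreeGroup α ⧸ Subgroup.normalClosure {x : FreeGroup α | ∃ w : FreeGroup α, x = w ^ n}

/-- The generators. -/
def gen {α : Type u} (n : ℕ) (i : α) : B α n := QuotientGroup.mk (FreeGroup.of i)

theorem pow_n {α : Type u} (n : ℕ) (x : B α n) : x ^ n = 1 := by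
  obtain ⟨w, rfl⟩ := QuotientGroup.mk_surjective x
  rw [← QuotientGroup.mk_pow, QuotientGroup.eq_one_iff]
  exact Subgroup.subset_normalClosure ⟨w, rfl⟩

/-- Universal property. -/
def lift {α : Type u} (n : ℕ) {G : Type v} [Group G] (hG : ∀ g : G, g ^ n = 1) (f : α → G) :
    B α n →* G :=
  QuotientGroup.lift _ (FreeGroup.lift f) (by
    show Subgroup.normalClosure _ ≤ (FreeGroup.lift f).ker
    refine Subgroup.normalClosure_le_normal ?_
    rintro _ ⟨w, rfl⟩
    show FreeGroup.lift f (w ^ n) = 1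
    rw [map_pow, hG])

theorem lift_gen {α : Type u} (n : ℕ) {G : Type v} [Group G] (hG : ∀ g : G, g ^ n = 1) (f : α → G)
    (i : α) : lift n hG f (gen n i) = f i := by
  show FreeGroup.lift f (FreeGroup.of i) = f i
  exact FreeGroup.lift_apply_of

theorem hom_ext {α : Type u} {n : ℕ} {G : Type v} [Group G] (f g : B α n →* G)
    (h : ∀ i, f (gen n i) = g (gen n i)) : f = g := by
  apply QuotientGroup.monoidHom_ext
  apply FreeGroup.ext_hom
  intro i
  exact h i

/-- The exponent homomorphism onto `ZMod n`. -/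
noncomputable def deg (α : Type u) (n : ℕ) : B α n →* Multiplicative (ZMod n) :=
  lift n (fun g => by
    rw [← ofAdd_toAdd g, ← ofAdd_nsmul, nsmul_eq_mul, CharP.cast_eq_zero, zero_mul, ofAdd_zero])
    (fun _ => Multiplicative.ofAdd 1)

theorem deg_gen {α : Type u} (n : ℕ) (i : α) : deg α n (gen n i) = Multiplicative.ofAdd 1 :=
  lift_gen _ _ _ _

theorem gen_pow_ne {α : Type u} {n : ℕ} (i : α) {k : ℕ} (hk : ¬ n ∣ k) : gen n i ^ k ≠ 1 := by
  intro h
  have h1 := congrArg (deg α n) h
  rw [map_pow, deg_gen, MonoidHom.map_one, ← ofAdd_nsmul, nsmul_eq_mul, mul_one] at h1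
  have h2 : ((k : ℕ) : ZMod n) = 0 := h1
  rw [ZMod.natCast_eq_zero_iff] at h2
  exact hk h2

theorem exists_split {n : ℕ} (h1 : 1 < n) (h2 : ¬ IsPrimePow n) :
    ∃ a b : ℕ, 1 < a ∧ 1 < b ∧ Nat.Coprime a b ∧ a * b = n := by
  have hp := Nat.minFac_prime (n := n) (by omega)
  have hd : n.minFac ∣ n := Nat.minFac_dvd n
  refine ⟨ordProj[n.minFac] n, ordCompl[n.minFac] n, ?_, ?_, ?_, ?_⟩
  · refine Nat.one_lt_pow ?_ hp.one_lt
    exact (hp.factorization_pos_of_dvd (by omega) hd).ne'
  · rcases Nat.lt_or_ge 1 (ordCompl[n.minFac] n) with h | h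
    · exact h
    · exfalso
      have h3 : 0 < ordCompl[n.minFac] n := Nat.ordCompl_pos _ (by omega)
      have h4 : ordCompl[n.minFac] n = 1 := by omega
      have h5 := Nat.ordProj_mul_ordCompl_eq_self n n.minFac
      rw [h4, mul_one] at h5
      apply h2
      rw [← h5]
      exact hp.isPrimePow.pow (hp.factorization_pos_of_dvd (by omega) hd).ne'
  · exact (Nat.coprime_ordCompl hp (by omega)).pow_left _
  · exact Nat.ordProj_mul_ordCompl_eq_self n n.minFac

/-- For every `n > 1` that is not a prime power and every nonempty `α`, the free Burnside group of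
exponent `n` on `α` has a retract that is not isomorphic to any free Burnside group of exponent
`n`. -/
theorem result (n : ℕ) (h1 : 1 < n) (h2 : ¬ IsPrimePow n) (α : Type u) [Nonempty α] :
    ∃ (H : Subgroup (B α n)) (ρ : B α n →* H), (∀ h : H, ρ h = h) ∧
      ∀ β : Type v, IsEmpty (H ≃* B β n) := by
  obtain ⟨a, b, ha, hb, hab, rfl⟩ := exists_split h1 h2
  obtain ⟨e, he1, he2⟩ := Nat.chineseRemainder hab 0 1
  have i0 : α := Classical.arbitrary α
  set g : B α (a * b) := gen (a * b) i0 with hg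
  have hae : a ∣ e := (Nat.modEq_zero_iff_dvd).1 he1
  have hee : g ^ (e * e) = g ^ e := by
    have : e * e ≡ e [MOD (a * b)] := by
      rw [← Nat.modEq_and_modEq_iff_modEq_mul hab]
      constructor
      · exact ((he1.mul_left e).trans (by rw [mul_zero])).trans he1.symm
      · exact (he2.mul_left e).trans (by rw [mul_one])
    rw [pow_eq_pow_mod (e * e) (pow_n _ g), pow_eq_pow_mod e (pow_n _ g), this]
  have hexp : (g ^ e) ^ b = 1 := by
    obtain ⟨c, hc⟩ := hae
    rw [← pow_mul, hc, show a * c * b = (a * b) * c by ring, pow_mul, pow_n, one_pow]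
  have hne : g ^ e ≠ 1 := by
    apply gen_pow_ne
    intro h
    have h3 : b ∣ e := dvd_trans (dvd_mul_left b a) h
    have h4 : (0 : ℕ) ≡ 1 [MOD b] := ((Nat.modEq_zero_iff_dvd).2 h3).symm.trans he2
    have h5 : b ∣ 1 := (Nat.modEq_zero_iff_dvd).1 h4.symm
    have := Nat.le_of_dvd one_pos h5
    omega
  have hHn : ∀ x : Subgroup.zpowers (g ^ e), x ^ (a * b) = 1 := by
    intro x
    apply Subtype.ext
    show (x : B α (a * b)) ^ (a * b) = 1
    exact pow_n _ _
  have hHb : ∀ x : Subgroup.zpowers (g ^ e), x ^ b = 1 := by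
    rintro ⟨x, k, rfl⟩
    apply Subtype.ext
    show ((g ^ e) ^ k) ^ b = 1
    rw [← zpow_natCast, ← zpow_mul, mul_comm k (b : ℤ), zpow_mul, zpow_natCast, hexp, one_zpow]
  let ρ : B α (a * b) →* Subgroup.zpowers (g ^ e) :=
    lift (a * b) hHn (fun _ => ⟨g ^ e, Subgroup.mem_zpowers _⟩)
  refine ⟨Subgroup.zpowers (g ^ e), ρ, ?_, ?_⟩
  · have h3 : ρ g = ⟨g ^ e, Subgroup.mem_zpowers _⟩ := lift_gen _ _ _ _
    rintro ⟨x, k, rfl⟩
    show ρ ((g ^ e) ^ k) = _
    rw [map_zpow, map_pow, h3]
    apply Subtype.ext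
    show ((g ^ e) ^ e) ^ k = (g ^ e) ^ k
    rw [← pow_mul, hee]
  · intro β
    constructor
    intro φ
    rcases isEmpty_or_nonempty β with hβ | ⟨⟨j⟩⟩
    · apply hne
      have h3 : φ ⟨g ^ e, Subgroup.mem_zpowers _⟩ = φ 1 := by
        have h4 : MonoidHom.id (B β (a * b)) = 1 := hom_ext _ _ (fun i => isEmptyElim i)
        have h5 : ∀ y : B β (a * b), y = 1 := fun y => congrArg (fun f : B β (a * b) →* B β (a * b) => f y) h4
        rw [h5 (φ ⟨g ^ e, Subgroup.mem_zpowers _⟩), h5 (φ 1)]
      have h6 := φ.injective h3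
      exact congrArg Subtype.val h6
    · have h3 : (gen (a * b) j) ^ b ≠ 1 := by
        apply gen_pow_ne
        intro h
        have := Nat.le_of_dvd (by omega) h
        nlinarith
      apply h3
      have h4 := hHb (φ.symm (gen (a * b) j))
      rw [← map_pow, EmbeddingLike.map_eq_one_iff] at h4
      exact h4

end Pool.Agent.Results.MP_836feb_al.NonPrimePower
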